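import Pool.Agent.Q293.HF.Stm

/-! HF-COV: coverings with group `ℤ`. -/

set_option autoImplicit false

namespace Pool.Agent.Q164.HF.COV

open Pool.Agent.Q293.HF Pool.Agent.Helper922.HB

variable {E : Type} [TopologicalSpace E] {X : Type} [TopologicalSpace X]

lemma push_SubC (f : C(E, X)) (B : Set E) (A : Set X) (h : ∀ e ∈ B, f e ∈ A) (n : ℕ)
    (z : Sing E n →₀ ℤ) (hz : z ∈ SubC B n) : push f n z ∈ SubC A n := by
  refine Sc.supported_map {σ : Sing E n | Set.range σ ⊆ B} (push f n) (SubC A n) ?_ z hz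
  intro σ hσ
  rw [push_single]
  refine Finsupp.single_mem_supported ℤ 1 ?_
  rintro _ ⟨t, rfl⟩
  exact h _ (hσ ⟨t, rfl⟩)

lemma bdry_SubC (B : Set E) (n : ℕ) (z : Sing E (n + 1) →₀ ℤ) (hz : z ∈ SubC B (n + 1)) :
    bdry E n z ∈ SubC B n := by
  obtain ⟨u, rfl⟩ := mvx_lift B (n + 1) z hz
  rw [bdry_push]
  exact mvx_support B n _

lemma PP_apply (g : C(E, E)) (n : ℕ) (z : Sing E n →₀ ℤ) :
    PP g n z = z - push g n z + push g n (push g n z) := rfl

lemma bdry_PP (g : C(E, E)) (n : ℕ) (z : Sing E (n + 1) →₀ ℤ) :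
    bdry E n (PP g (n + 1) z) = PP g n (bdry E n z) := by
  rw [PP_apply, PP_apply, map_add, map_sub, bdry_push, bdry_push, bdry_push]

lemma push_PP (g : C(E, E)) (n : ℕ) (z : Sing E n →₀ ℤ) :
    push g n (PP g n z) = PP g n (push g n z) := by
  rw [PP_apply, PP_apply, map_add, map_sub]

lemma push_it (g : C(E, E)) (n k : ℕ) (z : Sing E n →₀ ℤ) :
    push g n ((⇑(PP g n))^[k] z) = (⇑(PP g n))^[k] (push g n z) := by
  induction k with
  | zero => rfl
  | succ k ih => rw [Function.iterate_succ_apply', Function.iterate_succ_apply', push_PP, ih]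

lemma bdry_it (g : C(E, E)) (n k : ℕ) (z : Sing E (n + 1) →₀ ℤ) :
    bdry E n ((⇑(PP g (n + 1)))^[k] z) = (⇑(PP g n))^[k] (bdry E n z) := by
  induction k with
  | zero => rfl
  | succ k ih => rw [Function.iterate_succ_apply', Function.iterate_succ_apply', bdry_PP, ih]

lemma SubC_it (g : C(E, E)) (B : Set E) (h : ∀ e ∈ B, g e ∈ B) (n k : ℕ) (z : Sing E n →₀ ℤ)
    (hz : z ∈ SubC B n) : (⇑(PP g n))^[k] z ∈ SubC B n := by
  induction k with
  | zero => exact hz
  | succ k ih =>
    rw [Function.iterate_succ_apply', PP_apply]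
    have h1 := push_SubC g B B h n _ ih
    have h2 := push_SubC g B B h n _ h1
    exact (SubC B n).add_mem ((SubC B n).sub_mem ih h1) h2

lemma it_sub (g : C(E, E)) (n k : ℕ) (a b : Sing E n →₀ ℤ) :
    (⇑(PP g n))^[k] (a - b) = (⇑(PP g n))^[k] a - (⇑(PP g n))^[k] b := by
  induction k with
  | zero => rfl
  | succ k ih =>
    rw [Function.iterate_succ_apply', Function.iterate_succ_apply',
      Function.iterate_succ_apply', ih, map_sub]

/-- the quotient `(1 - P ^ k) / (g - 1)` -/
noncomputable def QQ (g : C(E, E)) (n : ℕ) : ℕ → (Sing E n →₀ ℤ) → (Sing E n →₀ ℤ)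
  | 0, _ => 0
  | k + 1, x => QQ g n k x - push g n ((⇑(PP g n))^[k] x)

lemma QQ_sub (g : C(E, E)) (n k : ℕ) (a b : Sing E n →₀ ℤ) :
    QQ g n k (a - b) = QQ g n k a - QQ g n k b := by
  induction k with
  | zero => simp [QQ]
  | succ k ih =>
    simp only [QQ]
    rw [ih, it_sub, map_sub]
    abel

lemma QQ_eq (g : C(E, E)) (n k : ℕ) (x : Sing E n →₀ ℤ) :
    QQ g n k (push g n x - x) + (⇑(PP g n))^[k] x = x := by
  induction k with
  | zero => simp [QQ]
  | succ k ih =>
    simp only [QQ]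
    rw [it_sub, map_sub, Function.iterate_succ_apply', PP_apply, ← push_it]
    calc QQ g n k (push g n x - x) -
          (push g n (push g n ((⇑(PP g n))^[k] x)) - push g n ((⇑(PP g n))^[k] x)) +
          ((⇑(PP g n))^[k] x - push g n ((⇑(PP g n))^[k] x) +
            push g n (push g n ((⇑(PP g n))^[k] x)))
        = QQ g n k (push g n x - x) + (⇑(PP g n))^[k] x := by abel
      _ = x := ih

lemma bdry_QQ (g : C(E, E)) (n k : ℕ) (x : Sing E (n + 1) →₀ ℤ) :
    bdry E n (QQ g (n + 1) k x) = QQ g n k (bdry E n x) := by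
  induction k with
  | zero => simp [QQ]
  | succ k ih =>
    simp only [QQ]
    rw [map_sub, ih, bdry_push, bdry_it]

lemma SubC_QQ (g : C(E, E)) (B : Set E) (h : ∀ e ∈ B, g e ∈ B) (n k : ℕ) (z : Sing E n →₀ ℤ)
    (hz : z ∈ SubC B n) : QQ g n k z ∈ SubC B n := by
  induction k with
  | zero => exact zero_mem _
  | succ k ih =>
    simp only [QQ]
    exact (SubC B n).sub_mem ih (push_SubC g B B h n _ (SubC_it g B h n k z hz))

theorem cov (h : S_CHAIN) : S_COV := by
  intro E X _ _ p g hZ A k hK n z hz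
  rw [Function.iterate_zero, id]
  set B : Set E := p ⁻¹' A with hB
  have hgB : ∀ e ∈ B, (toC g) e ∈ B := by
    intro e he
    show p (g e) ∈ A
    rw [hZ.inv]
    exact he
  have hpB : ∀ e ∈ B, p e ∈ A := fun e he => he
  have hpg : p.comp (toC g) = p := by
    ext e
    exact hZ.inv e
  have hpush : ∀ (m : ℕ) (y : Sing E m →₀ ℤ), push p m (push (toC g) m y) = push p m y := by
    intro m y
    rw [push_push, hpg]
  have hpit : ∀ (m : ℕ) (j : ℕ) (y : Sing E m →₀ ℤ),
      push p m ((⇑(PP (toC g) m))^[j] y) = push p m y := by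
    intro m j y
    induction j with
    | zero => rfl
    | succ j ih =>
      rw [Function.iterate_succ_apply', PP_apply, map_add, map_sub]
      simp only [hpush, ih]
      abel
  have hfinal : ∀ (m : ℕ) (y : Sing E m →₀ ℤ), y ∈ RBdy B m → push p m y ∈ RBdy A m := by
    intro m y hy
    obtain ⟨a, ha, b, hb, rfl⟩ := Submodule.mem_sup.1 hy
    rw [map_add]
    exact Submodule.add_mem_sup (push_mem_Bdy p m a ha) (push_SubC p B A hpB m b hb)
  cases n with
  | zero =>
    obtain ⟨ha, -, -⟩ := h E X p g hZ A 0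
    obtain ⟨y, rfl⟩ := ha z
    have h1 := hfinal 0 _ (hK 0 y Submodule.mem_top)
    rwa [hpit] at h1
  | succ n =>
    obtain ⟨ha, -, -⟩ := h E X p g hZ A (n + 1)
    obtain ⟨y, rfl⟩ := ha z
    have hz' : bdry X n (push p (n + 1) y) ∈ SubC A n := hz
    rw [bdry_push] at hz'
    obtain ⟨-, hb, -⟩ := h E X p g hZ A n
    obtain ⟨w, b, hbB, hyw⟩ := hb _ hz'
    have hw : w ∈ RCyc B n := by
      cases n with
      | zero => exact Submodule.mem_top
      | succ m =>
        show bdry E m w ∈ SubC B m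
        obtain ⟨-, -, hc⟩ := h E X p g hZ A m
        apply hc
        have h1 : push (toC g) m (bdry E m w) - bdry E m w = - bdry E m b := by
          have h2 := congrArg (bdry E m) hyw
          rw [bdry_bdry, map_add, map_sub, bdry_push] at h2
          exact (neg_eq_of_add_eq_zero_left h2.symm).symm
        rw [h1]
        exact (SubC B m).neg_mem (bdry_SubC B m b hbB)
    have hkw : (⇑(PP (toC g) n))^[k] w ∈ RBdy B n := hK n w hw
    obtain ⟨a, ⟨v, rfl⟩, b₁, hb₁, hv⟩ := Submodule.mem_sup.1 hkw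
    have hw2 : w = bdry E n (QQ (toC g) (n + 1) k y + v) + (b₁ - QQ (toC g) n k b) := by
      have h1 := QQ_eq (toC g) n k w
      have h2 : push (toC g) n w - w = bdry E n y - b := by
        rw [hyw]
        abel
      rw [h2, QQ_sub, ← hv] at h1
      rw [map_add, bdry_QQ]
      rw [← h1]
      abel
    set v' := QQ (toC g) (n + 1) k y + v with hv'
    set b' := b₁ - QQ (toC g) n k b with hb'
    have hb'B : b' ∈ SubC B n := (SubC B n).sub_mem hb₁ (SubC_QQ (toC g) B hgB n k b hbB)
    have hy' : y - (push (toC g) (n + 1) v' - v') ∈ RCyc B (n + 1) := by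
      show bdry E n _ ∈ SubC B n
      have h1 : bdry E n (y - (push (toC g) (n + 1) v' - v')) =
          b + (push (toC g) n b' - b') := by
        have h3 : bdry E n v' = w - b' := by
          rw [hw2]
          abel
        rw [map_sub, map_sub, bdry_push, hyw, h3, map_sub]
        abel
      rw [h1]
      exact (SubC B n).add_mem hbB ((SubC B n).sub_mem (push_SubC _ B B hgB n _ hb'B) hb'B)
    have h1 := hfinal (n + 1) _ (hK (n + 1) _ hy')
    rw [hpit, map_sub, map_sub, hpush, sub_self, sub_zero] at h1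
    exact h1

end Pool.Agent.Q164.HF.COV
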