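import Pool.Agent.Q164.HF.Contr

/-! HF-CTR: pairs `(E, B)` with `E` contractible. -/

set_option autoImplicit false

namespace Pool.Agent.Q164.HF.CTR

open Pool.Agent.Q293.HF Pool.Agent.Helper922.HB Pool.Agent.Q164.HF

lemma PP_apply {E : Type} [TopologicalSpace E] (g : C(E, E)) (n : ℕ) (z : Sing E n →₀ ℤ) :
    PP g n z = z - push g n z + push g n (push g n z) := rfl

lemma bdry_PP {E : Type} [TopologicalSpace E] (g : C(E, E)) (n : ℕ) (z : Sing E (n + 1) →₀ ℤ) :
    bdry E n (PP g (n + 1) z) = PP g n (bdry E n z) := by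
  rw [PP_apply, PP_apply, map_add, map_sub, bdry_push, bdry_push, bdry_push]

theorem ctr : S_CTR := by
  intro E _ _ g B hB gB hgB hK n z hz
  rw [Function.iterate_one]
  have hcomp : (toC g).comp (sub B) = (sub B).comp gB := by
    ext x
    exact (hgB x).symm
  have hPP : ∀ (m : ℕ) (y : Sing B m →₀ ℤ),
      PP (toC g) m (push (sub B) m y) = push (sub B) m (PP gB m y) := by
    intro m y
    have e1 : ∀ u : Sing B m →₀ ℤ, push (toC g) m (push (sub B) m u) =
        push (sub B) m (push gB m u) := by
      intro u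
      rw [push_push, push_push, hcomp]
    rw [PP_apply, PP_apply, map_add, map_sub, e1, e1]
  cases n with
  | zero =>
    obtain ⟨b, hb⟩ := hB
    have h1 := bdy_zero b (PP (toC g) 0 z)
    have h2 : Finsupp.single (kap b 0) (aug E 0 (PP (toC g) 0 z)) ∈ SubC B 0 := by
      unfold SubC
      rw [Finsupp.mem_supported]
      intro σ hσ
      have h3 := Finsupp.support_single_subset hσ
      rw [Finset.mem_singleton] at h3
      rw [h3]
      rintro _ ⟨t, rfl⟩
      exact hb
    have h3 := Submodule.add_mem_sup h1 h2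
    rwa [sub_add_cancel] at h3
  | succ n =>
    have hz' : bdry E n z ∈ SubC B n := hz
    obtain ⟨y, hy⟩ := mvx_lift B n _ hz'
    have hyc : y ∈ Cyc B n := by
      cases n with
      | zero => exact Submodule.mem_top
      | succ m =>
        change bdry B m y = 0
        apply mvx_inj_sub B m
        rw [map_zero, ← bdry_push, hy, bdry_bdry]
    have hya : n = 0 → aug B n y = 0 := by
      rintro rfl
      rw [← aug_push (sub B) 0 y, hy, aug_bdry]
    obtain ⟨w, hw⟩ := hK n y hyc hya
    have hcyc : PP (toC g) (n + 1) z - push (sub B) (n + 1) w ∈ Cyc E (n + 1) := by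
      change bdry E n _ = 0
      rw [map_sub, bdry_PP, bdry_push, hw, ← hy, hPP, sub_self]
    have h1 := bdy_of_cyc n _ hcyc
    have h2 : push (sub B) (n + 1) w ∈ SubC B (n + 1) := mvx_support B (n + 1) w
    have h3 := Submodule.add_mem_sup h1 h2
    rwa [sub_add_cancel] at h3

end Pool.Agent.Q164.HF.CTR
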