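import Pool.Agent.Q293.HF.Stm

/-! Contractible spaces: cycles are boundaries. -/

set_option autoImplicit false

namespace Pool.Agent.Q164.HF

open Pool.Agent.Q293.HF Pool.Agent.Helper922.HB

variable {E : Type} [TopologicalSpace E]

/-- constant simplex -/
noncomputable def kap (y : E) (n : ℕ) : Sing E n := ContinuousMap.const _ y

lemma aug_single (n : ℕ) (σ : Sing E n) (c : ℤ) : aug E n (Finsupp.single σ c) = c := by
  simp [aug]

lemma push_const (y : E) (n : ℕ) (z : Sing E n →₀ ℤ) :
    push (ContinuousMap.const E y) n z = Finsupp.single (kap y n) (aug E n z) := by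
  induction z using Finsupp.induction_linear with
  | zero => simp
  | add f g hf hg => rw [map_add, map_add, hf, hg, Finsupp.single_add]
  | single σ c =>
    rw [push_single, aug_single]
    rfl

lemma bdry_kap (y : E) (n : ℕ) (c : ℤ) :
    bdry E n (Finsupp.single (kap y (n + 1)) c) =
      Finsupp.single (kap y n) (if Even (n + 2) then 0 else c) := by
  have hf : ∀ i : Fin (n + 2), sface n i (kap y (n + 1)) = kap y n := fun i => rfl
  simp only [bdry, LinearMap.sum_apply, LinearMap.smul_apply, Finsupp.lmapDomain_apply,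
    Finsupp.mapDomain_single, hf]
  rw [← Finset.sum_smul, Fin.sum_univ_eq_sum_range (fun i => (-1 : ℤ) ^ i), neg_one_geom_sum]
  split_ifs with h
  · simp
  · simp

lemma homotopic_const_id [ContractibleSpace E] (b : E) :
    ∃ K : C(E × unitInterval, E), (∀ x, K (x, 0) = x) ∧ ∀ x, K (x, 1) = b := by
  have h1 : (ContinuousMap.id E).Homotopic (ContinuousMap.const E b) := by
    obtain ⟨y, hy⟩ := id_nullhomotopic E
    refine hy.trans ?_
    have : Nonempty E := ⟨b⟩
    rw [ContinuousMap.homotopic_const_iff]
    exact PathConnectedSpace.joined y b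
  obtain ⟨H⟩ := h1
  refine ⟨H.toContinuousMap.comp ContinuousMap.prodSwap, fun x => ?_, fun x => ?_⟩
  · exact H.map_zero_left x
  · exact H.map_one_left x

lemma bdy_of_cyc [ContractibleSpace E] (n : ℕ) (z : Sing E (n + 1) →₀ ℤ)
    (hz : z ∈ Cyc E (n + 1)) : z ∈ Bdy E (n + 1) := by
  obtain ⟨y, -⟩ := id_nullhomotopic E
  obtain ⟨K, h0, h1⟩ := homotopic_const_id y
  have h := push_sub_mem_of_homotopy K (ContinuousMap.id E) (ContinuousMap.const E y) h0 h1
    (n + 1) z hz
  rw [push_id, push_const] at h
  have hk : Finsupp.single (kap y (n + 1)) (aug E (n + 1) z) ∈ Bdy E (n + 1) := by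
    by_cases hp : Even (n + 2)
    · refine ⟨Finsupp.single (kap y (n + 2)) (aug E (n + 1) z), ?_⟩
      rw [bdry_kap, if_neg]
      intro h3
      have h4 : ¬ Even (n + 2 + 1) := Nat.not_even_iff_odd.2 hp.add_one
      exact h4 h3
    · have h2 : bdry E n (push (ContinuousMap.const E y) (n + 1) z) = 0 :=
        push_mem_Cyc (ContinuousMap.const E y) (n + 1) z hz
      rw [push_const, bdry_kap, if_neg hp, Finsupp.single_eq_zero] at h2
      rw [h2, Finsupp.single_zero]
      exact zero_mem _
  have h5 := (Bdy E (n + 1)).sub_mem hk h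
  rwa [sub_sub_cancel] at h5

lemma bdy_zero [ContractibleSpace E] (b : E) (z : Sing E 0 →₀ ℤ) :
    z - Finsupp.single (kap b 0) (aug E 0 z) ∈ Bdy E 0 := by
  obtain ⟨K, h0, h1⟩ := homotopic_const_id b
  have h := push_sub_mem_of_homotopy K (ContinuousMap.id E) (ContinuousMap.const E b) h0 h1
    0 z Submodule.mem_top
  rw [push_id, push_const] at h
  have h2 := (Bdy E 0).neg_mem h
  rwa [neg_sub] at h2

lemma bdy_of_aug [ContractibleSpace E] (z : Sing E 0 →₀ ℤ) (hz : aug E 0 z = 0) :
    z ∈ Bdy E 0 := by
  obtain ⟨y, -⟩ := id_nullhomotopic E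
  have h := bdy_zero y z
  rwa [hz, Finsupp.single_zero, sub_zero] at h

lemma aug_push {X : Type} [TopologicalSpace X] (f : C(E, X)) (n : ℕ) (z : Sing E n →₀ ℤ) :
    aug X n (push f n z) = aug E n z := by
  induction z using Finsupp.induction_linear with
  | zero => simp
  | add f g hf hg => rw [map_add, map_add, map_add, hf, hg]
  | single σ c => rw [push_single, aug_single, aug_single]

lemma aug_bdry (z : Sing E 1 →₀ ℤ) : aug E 0 (bdry E 0 z) = 0 := by
  induction z using Finsupp.induction_linear with
  | zero => simp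
  | add f g hf hg => rw [map_add, map_add, hf, hg, add_zero]
  | single σ c =>
    simp only [bdry, LinearMap.sum_apply, LinearMap.smul_apply, Finsupp.lmapDomain_apply,
      Finsupp.mapDomain_single, map_sum, map_smul, aug_single]
    simp [Fin.sum_univ_two]

end Pool.Agent.Q164.HF
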