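import Pool.Agent.Q164.HF.Contr

/-! HF-LAB: a space with finitely many contractible open pieces. -/

set_option autoImplicit false

namespace Pool.Agent.Q164.HF.LAB

open Pool.Agent.Q293.HF Pool.Agent.Helper922.HB Pool.Agent.Q164.HF

variable {W : Type} [TopologicalSpace W] {L : Type} [DecidableEq L] (l : W → L)

/-- label of a simplex -/
noncomputable def lbl (n : ℕ) (σ : Sing W n) : L := l (σ (Sc.vert n 0))

omit [DecidableEq L] in
lemma lab_const (hl : ∀ i, IsOpen {x | l x = i}) (n : ℕ) (σ : Sing W n)
    (s t : stdSimplex ℝ (Fin (n + 1))) : l (σ s) = l (σ t) := by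
  letI : TopologicalSpace L := ⊥
  haveI : DiscreteTopology L := ⟨rfl⟩
  have hc : Continuous l := continuous_discrete_rng.2 hl
  have hp : PreconnectedSpace (stdSimplex ℝ (Fin (n + 1))) := inferInstance
  exact PreconnectedSpace.constant hp (hc.comp σ.continuous)

/-- the part of a chain with label `i` -/
noncomputable def pr (i : L) (n : ℕ) : (Sing W n →₀ ℤ) →ₗ[ℤ] (Sing W n →₀ ℤ) :=
  Finsupp.lsum ℤ fun σ => if lbl l n σ = i then Finsupp.lsingle σ else 0

lemma pr_single (i : L) (n : ℕ) (σ : Sing W n) (c : ℤ) :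
    pr l i n (Finsupp.single σ c) = if lbl l n σ = i then Finsupp.single σ c else 0 := by
  unfold pr
  rw [Finsupp.lsum_single]
  split_ifs <;> rfl

lemma bdry_pr (hl : ∀ i, IsOpen {x | l x = i}) (i : L) (n : ℕ) (z : Sing W (n + 1) →₀ ℤ) :
    bdry W n (pr l i (n + 1) z) = pr l i n (bdry W n z) := by
  induction z using Finsupp.induction_linear with
  | zero => simp
  | add f g hf hg => rw [map_add, map_add, map_add, map_add, hf, hg]
  | single σ c =>
    have hface : ∀ j : Fin (n + 2), lbl l n (sface n j σ) = lbl l (n + 1) σ := by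
      intro j
      exact lab_const l hl (n + 1) σ _ _
    rw [pr_single]
    simp only [bdry, LinearMap.sum_apply, LinearMap.smul_apply, Finsupp.lmapDomain_apply,
      Finsupp.mapDomain_single, map_sum, map_smul, pr_single, hface]
    split_ifs with h
    · simp only [Finsupp.mapDomain_single]
    · simp

lemma sum_pr [Fintype L] (n : ℕ) (z : Sing W n →₀ ℤ) : ∑ i, pr l i n z = z := by
  induction z using Finsupp.induction_linear with
  | zero => simp
  | add f g hf hg =>
    simp only [map_add]
    rw [Finset.sum_add_distrib, hf, hg]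
  | single σ c =>
    simp only [pr_single]
    rw [Finset.sum_ite_eq]
    simp

lemma pr_supp (hl : ∀ i, IsOpen {x | l x = i}) (i : L) (n : ℕ) (z : Sing W n →₀ ℤ) :
    pr l i n z ∈ Finsupp.supported ℤ ℤ {σ : Sing W n | Set.range σ ⊆ {x | l x = i}} := by
  induction z using Finsupp.induction_linear with
  | zero =>
    rw [map_zero]
    exact zero_mem _
  | add f g hf hg =>
    rw [map_add]
    exact add_mem hf hg
  | single σ c =>
    rw [pr_single]
    split_ifs with h
    · refine Finsupp.single_mem_supported ℤ c ?_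
      rintro _ ⟨t, rfl⟩
      exact (lab_const l hl n σ t (Sc.vert n 0)).trans h
    · exact zero_mem _

lemma lsm_eq (i : L) (z : Sing W 0 →₀ ℤ) : lsm l i z = aug W 0 (pr l i 0 z) := by
  induction z using Finsupp.induction_linear with
  | zero => simp
  | add f g hf hg => rw [map_add, map_add, map_add, hf, hg]
  | single σ c =>
    rw [pr_single]
    unfold lsm
    rw [Finsupp.lsum_single]
    have hd : lbl l 0 σ = l (σ (Sc.vert 0 0)) := rfl
    rw [hd]
    split_ifs with h
    · rw [aug_single]
      rfl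
    · simp

theorem lab : S_LAB := by
  intro W _ L _ _ l hl hc
  have hlift : ∀ (i : L) (n : ℕ) (z : Sing W n →₀ ℤ),
      ∃ u : Sing {x | l x = i} n →₀ ℤ, push (sub {x | l x = i}) n u = pr l i n z :=
    fun i n z => mvx_lift _ n _ (pr_supp l hl i n z)
  refine ⟨fun n z hz => ?_, fun z => ⟨fun hz i => ?_, fun hz => ?_⟩⟩
  · rw [← sum_pr l (n + 1) z]
    refine Submodule.sum_mem _ fun i _ => ?_
    obtain ⟨u, hu⟩ := hlift i (n + 1) z
    rw [← hu]
    apply push_mem_Bdy
    haveI := hc i
    apply bdy_of_cyc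
    change bdry _ n u = 0
    apply mvx_inj_sub {x | l x = i} n
    have hz0 : bdry W n z = 0 := hz
    rw [map_zero, ← bdry_push, hu, bdry_pr l hl, hz0, map_zero]
  · obtain ⟨w, rfl⟩ := hz
    rw [lsm_eq, ← bdry_pr l hl, aug_bdry]
  · rw [← sum_pr l 0 z]
    refine Submodule.sum_mem _ fun i _ => ?_
    obtain ⟨u, hu⟩ := hlift i 0 z
    rw [← hu]
    apply push_mem_Bdy
    haveI := hc i
    apply bdy_of_aug
    rw [← aug_push (sub {x | l x = i}) 0 u, hu, ← lsm_eq]
    exact hz i

end Pool.Agent.Q164.HF.LAB
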